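import Mathlib
import Pool.Agent.H2.MG4

set_option autoImplicit false

open scoped Pointwise

namespace Pool.Agent.Results.MP_a4feb0_gt.Precompact

/-- Every totally minimal precompact solvable group of countable tightness is metrizable. -/
theorem result (G : Type) [Group G] [TopologicalSpace G] [IsTopologicalGroup G] [T2Space G]
    (hsolv : IsSolvable G)
    (hpre : ∀ U ∈ nhds (1 : G), ∃ F : Finset G, ∀ x : G, ∃ g ∈ F, x ∈ g • U)
    (hmin : ∀ (N : Subgroup G) [N.Normal], IsClosed (N : Set G) →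
      ∀ σ : TopologicalSpace (G ⧸ N), @IsTopologicalGroup (G ⧸ N) σ _ → @T2Space (G ⧸ N) σ →
        QuotientGroup.instTopologicalSpace N ≤ σ →
        σ = QuotientGroup.instTopologicalSpace N)
    (htight : ∀ (A : Set G) (x : G), x ∈ closure A → ∃ B ⊆ A, B.Countable ∧ x ∈ closure B) :
    TopologicalSpace.MetrizableSpace G := by
  refine H2.MG.solv_metr hsolv (fun U hU => ?_)
    (fun N _ hN => H2.MG.LM.of_top fun σ a b c _ => hmin N hN σ a b c) fun B hB => ?_
  · obtain ⟨F, hF⟩ := hpre U hU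
    exact ⟨F, fun x => (hF x).imp fun g hg => ⟨hg.1, Set.mem_smul_set_iff_inv_smul_mem.1 hg.2⟩⟩
  · obtain ⟨C, h5, h6, h7⟩ := htight B 1 hB
    exact ⟨C, h5, Cardinal.le_aleph0_iff_set_countable.2 h6, h7⟩

end Pool.Agent.Results.MP_a4feb0_gt.Precompact
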